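import Pool.Agent.Q175.FB.Psi

/-! The conformal map `Φ w = (2/π) w (4 - log w)` of the right half-disc and its inverse. -/

namespace Pool.Agent.Q175.FB

open Set Filter Topology ComplexConjugate

/-- the open right half disc -/
def UU : Set ℂ := {w | 0 < w.re} ∩ Metric.ball 0 1

/-- the conformal map -/
noncomputable def Phi (w : ℂ) : ℂ := (2 / Real.pi : ℝ) * (w * (4 - Complex.log w))

/-- the primitive `F` with `F' = (w^2/2) Φ'` -/
noncomputable def FF (w : ℂ) : ℂ :=
  (1 / Real.pi : ℝ) * ((10 / 9) * w ^ 3 - (w ^ 3 / 3) * Complex.log w)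

lemma UU_convex : Convex ℝ UU := by
  apply Convex.inter _ (convex_ball _ _)
  exact convex_halfSpace_re_gt 0

lemma UU_open : IsOpen UU :=
  (isOpen_lt continuous_const Complex.continuous_re).inter Metric.isOpen_ball

lemma closure_UU_subset : closure UU ⊆ {w | 0 ≤ w.re} ∩ Metric.closedBall 0 1 := by
  apply closure_minimal
  · rintro w ⟨h1, h2⟩
    have h3 : 0 < w.re := h1
    exact ⟨h3.le, Metric.ball_subset_closedBall h2⟩
  · exact (isClosed_le continuous_const Complex.continuous_re).inter Metric.isClosed_closedBall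

lemma mem_closure_UU {w : ℂ} (h0 : 0 ≤ w.re) (h1 : ‖w‖ < 1) : w ∈ closure UU := by
  rw [Metric.mem_closure_iff]
  intro ε hε
  refine ⟨w + ((min (ε/2) ((1 - ‖w‖)/2) : ℝ) : ℂ), ⟨?_, ?_⟩, ?_⟩
  · rw [Set.mem_ofPred_eq, Complex.add_re, Complex.ofReal_re]
    have : 0 < min (ε/2) ((1 - ‖w‖)/2) := lt_min (by linarith) (by linarith)
    linarith
  · rw [mem_ball_zero_iff]
    have hpos : 0 < min (ε/2) ((1 - ‖w‖)/2) := lt_min (by linarith) (by linarith)
    refine (norm_add_le _ _).trans_lt ?_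
    rw [Complex.norm_real, Real.norm_eq_abs, abs_of_pos hpos]
    have := min_le_right (ε/2) ((1 - ‖w‖)/2)
    linarith
  · rw [dist_eq_norm]
    have hpos : 0 < min (ε/2) ((1 - ‖w‖)/2) := lt_min (by linarith) (by linarith)
    simp only [sub_add_cancel_left, norm_neg]
    rw [Complex.norm_real, Real.norm_eq_abs, abs_of_pos hpos]
    have := min_le_left (ε/2) ((1 - ‖w‖)/2)
    linarith

lemma slit_of_re {w : ℂ} (h : 0 ≤ w.re) (h0 : w ≠ 0) : w ∈ Complex.slitPlane := by
  rw [Complex.mem_slitPlane_iff]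
  rcases eq_or_lt_of_le h with h | h
  · right
    intro hi
    exact h0 (Complex.ext h.symm hi)
  · exact Or.inl h

lemma UU_slit {w : ℂ} (h : w ∈ UU) : w ∈ Complex.slitPlane := Or.inl h.1

lemma UU_ne {w : ℂ} (h : w ∈ UU) : w ≠ 0 := by
  rintro rfl
  have h3 : 0 < (0:ℂ).re := h.1
  simp at h3

/-- `w ↦ w log w` is continuous on the closed right half-plane -/
lemma cont_mul_log {w : ℂ} (h : 0 ≤ w.re) : ContinuousAt (fun w : ℂ => w * Complex.log w) w := by
  by_cases h0 : w = 0
  · subst h0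
    rw [ContinuousAt, zero_mul, tendsto_zero_iff_norm_tendsto_zero]
    have h1 : Tendsto (fun w : ℂ => |‖w‖ * Real.log ‖w‖| + ‖w‖ * Real.pi) (𝓝 0) (𝓝 0) := by
      have hc : Continuous (fun w : ℂ => |‖w‖ * Real.log ‖w‖| + ‖w‖ * Real.pi) :=
        ((Real.continuous_mul_log.comp continuous_norm).abs).add (continuous_norm.mul continuous_const)
      have := hc.tendsto 0
      simpa using this
    refine squeeze_zero (fun w => norm_nonneg _) (fun w => ?_) h1
    rw [norm_mul]
    have h2 : ‖Complex.log w‖ ≤ |Real.log ‖w‖| + Real.pi := by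
      refine (Complex.norm_le_abs_re_add_abs_im _).trans ?_
      rw [Complex.log_re, Complex.log_im]
      gcongr
      exact Complex.abs_arg_le_pi w
    calc ‖w‖ * ‖Complex.log w‖ ≤ ‖w‖ * (|Real.log ‖w‖| + Real.pi) := by gcongr
      _ = _ := by rw [abs_mul, abs_norm]; ring
  · exact continuousAt_id.mul (continuousAt_clog (slit_of_re h h0))

lemma cont_Phi {w : ℂ} (h : 0 ≤ w.re) : ContinuousAt Phi w := by
  have h1 : ContinuousAt (fun w : ℂ => ((2 / Real.pi : ℝ) : ℂ) * (4 * w - w * Complex.log w)) w :=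
    continuousAt_const.mul ((continuousAt_const.mul continuousAt_id).sub (cont_mul_log h))
  refine h1.congr (Eventually.of_forall fun w => ?_)
  simp only [Phi]; ring

lemma cont_FF {w : ℂ} (h : 0 ≤ w.re) : ContinuousAt FF w := by
  have h1 : ContinuousAt (fun w : ℂ => ((1 / Real.pi : ℝ) : ℂ) *
      ((10 / 9) * w ^ 3 - (w ^ 2 / 3) * (w * Complex.log w))) w := by
    refine continuousAt_const.mul (ContinuousAt.sub (by fun_prop) ?_)
    exact ContinuousAt.mul (by fun_prop) (cont_mul_log h)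
  refine h1.congr (Eventually.of_forall fun w => ?_)
  simp only [FF]; ring

/-- derivative of `Φ` -/
noncomputable def dPhi (w : ℂ) : ℂ := (2 / Real.pi : ℝ) * (3 - Complex.log w)

lemma hasStrictDerivAt_Phi {w : ℂ} (h : w ∈ Complex.slitPlane) : HasStrictDerivAt Phi (dPhi w) w := by
  have hw : w ≠ 0 := Complex.slitPlane_ne_zero h
  have h1 : HasStrictDerivAt (fun w : ℂ => ((2 / Real.pi : ℝ) : ℂ) * (w * (4 - Complex.log w)))
      (((2 / Real.pi : ℝ) : ℂ) * (1 * (4 - Complex.log w) + w * (0 - w⁻¹))) w := by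
    refine HasStrictDerivAt.const_mul _ ((hasStrictDerivAt_id w).mul ?_)
    exact (hasStrictDerivAt_const w (4:ℂ)).sub (Complex.hasStrictDerivAt_log h)
  have h2 : (((2 / Real.pi : ℝ) : ℂ) * (1 * (4 - Complex.log w) + w * (0 - w⁻¹))) = dPhi w := by
    unfold dPhi
    field_simp
    ring
  rw [h2] at h1
  exact h1

lemma hasDerivAt_FF {w : ℂ} (h : w ∈ Complex.slitPlane) :
    HasDerivAt FF (w ^ 2 / 2 * dPhi w) w := by
  have hw : w ≠ 0 := Complex.slitPlane_ne_zero h
  have h3 : HasDerivAt (fun w : ℂ => w ^ 3) (((3:ℕ):ℂ) * w ^ 2) w := hasDerivAt_pow 3 w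
  have h1 : HasDerivAt (fun w : ℂ => ((1 / Real.pi : ℝ) : ℂ) *
      ((10 / 9) * w ^ 3 - (w ^ 3 / 3) * Complex.log w))
      (((1 / Real.pi : ℝ) : ℂ) * ((10 / 9) * (((3:ℕ):ℂ) * w ^ 2)
        - ((((3:ℕ):ℂ) * w ^ 2) / 3 * Complex.log w + (w ^ 3 / 3) * w⁻¹))) w := by
    refine HasDerivAt.const_mul _ ((h3.const_mul _).sub ((h3.div_const _).mul ?_))
    exact Complex.hasDerivAt_log h
  refine h1.congr_deriv ?_
  unfold dPhi
  push_cast
  field_simp
  ring

lemma re_dPhi {w : ℂ} (h : w ∈ UU) : 6 / Real.pi ≤ (dPhi w).re := by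
  have hpi := Real.pi_pos
  unfold dPhi
  rw [Complex.re_ofReal_mul, Complex.sub_re, Complex.log_re]
  have h1 : Real.log ‖w‖ ≤ 0 := Real.log_nonpos (norm_nonneg _) (by
    have := h.2; rw [mem_ball_zero_iff] at this; exact this.le)
  have h2 : (3 : ℂ).re = 3 := by norm_num
  rw [h2]
  have h3 : 2 / Real.pi * 3 ≤ 2 / Real.pi * (3 - Real.log ‖w‖) := by
    gcongr; linarith
  calc 6 / Real.pi = 2 / Real.pi * 3 := by ring
    _ ≤ _ := h3

lemma dPhi_ne {w : ℂ} (h : w ∈ UU) : dPhi w ≠ 0 := by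
  intro h0
  have := re_dPhi h
  rw [h0, Complex.zero_re] at this
  have hpi := Real.pi_pos
  have : 0 < 6 / Real.pi := by positivity
  linarith

/-- coercivity on the open half-disc -/
lemma coercive_open {a b : ℂ} (ha : a ∈ UU) (hb : b ∈ UU) :
    6 / Real.pi * ‖b - a‖ ^ 2 ≤ (conj (b - a) * (Phi b - Phi a)).re := by
  set f : ℝ → ℝ := fun t => (conj (b - a) * Phi (a + t * (b - a))).re with hf
  have hmem : ∀ t ∈ Icc (0:ℝ) 1, a + t * (b - a) ∈ UU := by
    intro t ht
    have := UU_convex ha hb (sub_nonneg.mpr ht.2) ht.1 (by ring)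
    convert this using 1
    simp only [Complex.real_smul]
    push_cast
    ring
  have hd : ∀ t ∈ Icc (0:ℝ) 1, HasDerivAt f ((conj (b - a) * (dPhi (a + t * (b - a)) * (b - a))).re) t := by
    intro t ht
    have h1 := (hasStrictDerivAt_Phi (UU_slit (hmem t ht))).hasDerivAt
    have h2 : HasDerivAt (fun t : ℝ => a + (t:ℂ) * (b - a)) (b - a) t := by
      have h3 : HasDerivAt (fun t : ℝ => ((t:ℝ):ℂ)) 1 t := Complex.ofRealCLM.hasDerivAt
      have := (h3.mul_const (b - a)).const_add a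
      simpa using this
    have h3 := (h1.comp t h2).const_mul (conj (b - a))
    exact Complex.reCLM.hasFDerivAt.comp_hasDerivAt t h3
  have hder : ∀ t ∈ Icc (0:ℝ) 1, 6 / Real.pi * ‖b - a‖ ^ 2 ≤ (conj (b - a) * (dPhi (a + t * (b - a)) * (b - a))).re := by
    intro t ht
    have h1 := re_dPhi (hmem t ht)
    have h2 : conj (b - a) * (dPhi (a + t * (b - a)) * (b - a)) = ((‖b - a‖ ^ 2 : ℝ) : ℂ) * dPhi (a + t * (b - a)) := by
      have h5 : (b - a) * conj (b - a) = ((‖b - a‖ ^ 2 : ℝ) : ℂ) := by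
        rw [Complex.mul_conj, Complex.normSq_eq_norm_sq]
      rw [← h5]; ring
    rw [h2, Complex.re_ofReal_mul, mul_comm]
    gcongr
  have h := Convex.mul_sub_le_image_sub_of_le_deriv (D := Icc (0:ℝ) 1) (f := f) (convex_Icc 0 1)
    (fun t ht => (hd t ht).continuousAt.continuousWithinAt)
    (fun t ht => (hd t (interior_subset ht)).differentiableAt.differentiableWithinAt)
    (C := 6 / Real.pi * ‖b - a‖ ^ 2)
    (fun t ht => by rw [(hd t (interior_subset ht)).deriv]; exact hder t (interior_subset ht))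
    0 (left_mem_Icc.mpr zero_le_one) 1 (right_mem_Icc.mpr zero_le_one) zero_le_one
  simp only [sub_zero, mul_one] at h
  refine h.trans (le_of_eq ?_)
  simp only [hf]
  rw [← Complex.sub_re]
  congr 1
  push_cast
  ring_nf

lemma coercive {a b : ℂ} (ha : a ∈ closure UU) (hb : b ∈ closure UU) :
    6 / Real.pi * ‖b - a‖ ^ 2 ≤ (conj (b - a) * (Phi b - Phi a)).re := by
  have hmem : (a, b) ∈ closure (UU ×ˢ UU) := by
    rw [closure_prod_eq]; exact ⟨ha, hb⟩
  have hca : ContinuousAt Phi a := cont_Phi (closure_UU_subset ha).1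
  have hcb : ContinuousAt Phi b := cont_Phi (closure_UU_subset hb).1
  have h1 : ContinuousAt (fun p : ℂ × ℂ => 6 / Real.pi * ‖p.2 - p.1‖ ^ 2) (a, b) := by fun_prop
  have hca' : ContinuousAt (fun p : ℂ × ℂ => Phi p.1) (a, b) := ContinuousAt.comp (g := Phi) hca continuousAt_fst
  have hcb' : ContinuousAt (fun p : ℂ × ℂ => Phi p.2) (a, b) := ContinuousAt.comp (g := Phi) hcb continuousAt_snd
  have h2 : ContinuousAt (fun p : ℂ × ℂ => (conj (p.2 - p.1) * (Phi p.2 - Phi p.1)).re) (a, b) := by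
    apply Complex.continuous_re.continuousAt.comp
    refine ContinuousAt.mul ?_ (hcb'.sub hca')
    exact Complex.continuous_conj.continuousAt.comp (continuousAt_snd.sub continuousAt_fst)
  exact ContinuousWithinAt.closure_le hmem h1.continuousWithinAt h2.continuousWithinAt
    (fun p hp => coercive_open hp.1 hp.2)

lemma expand {a b : ℂ} (ha : a ∈ closure UU) (hb : b ∈ closure UU) :
    ‖b - a‖ ≤ Real.pi / 6 * ‖Phi b - Phi a‖ := by
  have hpi := Real.pi_pos
  rcases eq_or_lt_of_le (norm_nonneg (b - a)) with h | h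
  · rw [← h]; positivity
  have h1 := coercive ha hb
  have h2 : (conj (b - a) * (Phi b - Phi a)).re ≤ ‖b - a‖ * ‖Phi b - Phi a‖ := by
    refine (Complex.re_le_norm _).trans ?_
    rw [norm_mul, Complex.norm_conj]
  have h3 : 6 / Real.pi * ‖b - a‖ ≤ ‖Phi b - Phi a‖ := by
    have : ‖b - a‖ * (6 / Real.pi * ‖b - a‖) ≤ ‖b - a‖ * ‖Phi b - Phi a‖ := by
      calc ‖b - a‖ * (6 / Real.pi * ‖b - a‖) = 6 / Real.pi * ‖b - a‖ ^ 2 := by ring
        _ ≤ _ := h1.trans h2
    exact le_of_mul_le_mul_left this h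
  calc ‖b - a‖ = Real.pi / 6 * (6 / Real.pi * ‖b - a‖) := by field_simp
    _ ≤ _ := by gcongr

/-- boundary values -/
lemma Phi_bdry (y : ℝ) : (Phi (y * Complex.I)).re = |y| ∧
    (Phi (y * Complex.I)).im = 2 / Real.pi * (y * (4 - Real.log y)) := by
  have hpi := Real.pi_pos
  rcases lt_trichotomy y 0 with h | h | h
  · have hlog : Complex.log (y * Complex.I) = (Real.log y : ℂ) - (Real.pi / 2) * Complex.I := by
      have e1 : (y : ℂ) * Complex.I = ((-y : ℝ) : ℂ) * (-Complex.I) := by push_cast; ring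
      rw [e1, Complex.log_ofReal_mul (by linarith) (by simp), Complex.log_neg_I, Real.log_neg_eq_log]
      ring
    unfold Phi
    rw [hlog]
    constructor
    · rw [Complex.re_ofReal_mul]
      simp [abs_of_neg h]
      field_simp
    · rw [Complex.im_ofReal_mul]
      simp
  · subst h; simp [Phi]
  · have hlog : Complex.log (y * Complex.I) = (Real.log y : ℂ) + (Real.pi / 2) * Complex.I := by
      rw [Complex.log_ofReal_mul h (by simp), Complex.log_I]
    unfold Phi
    rw [hlog]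
    constructor
    · rw [Complex.re_ofReal_mul]
      simp [abs_of_pos h]
      field_simp
    · rw [Complex.im_ofReal_mul]
      simp

lemma FF_bdry (y : ℝ) : (FF (y * Complex.I)).re = - |y| ^ 3 / 6 := by
  have hpi := Real.pi_pos
  have hI : Complex.I ^ 3 = -Complex.I := Complex.I_pow_three
  rcases lt_trichotomy y 0 with h | h | h
  · have hlog : Complex.log (y * Complex.I) = (Real.log y : ℂ) - (Real.pi / 2) * Complex.I := by
      have e1 : (y : ℂ) * Complex.I = ((-y : ℝ) : ℂ) * (-Complex.I) := by push_cast; ring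
      rw [e1, Complex.log_ofReal_mul (by linarith) (by simp), Complex.log_neg_I, Real.log_neg_eq_log]
      ring
    unfold FF
    rw [hlog, Complex.re_ofReal_mul, mul_pow, hI]
    have e : ((10 / 9 : ℂ) * ((y:ℂ) ^ 3 * -Complex.I) - ((y:ℂ) ^ 3 * -Complex.I) / 3 *
        ((Real.log y : ℂ) - (Real.pi / 2) * Complex.I)) =
        ((y ^ 3 * Real.pi / 6 : ℝ) : ℂ) + ((- (10/9) * y ^ 3 + y ^ 3 * Real.log y / 3 : ℝ) : ℂ) * Complex.I := by
      push_cast
      ring_nf
      rw [Complex.I_sq]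
      ring
    rw [e]
    simp only [Complex.add_re, Complex.ofReal_re, Complex.re_ofReal_mul, Complex.I_re, mul_zero, add_zero]
    rw [abs_of_neg h]
    field_simp
  · subst h; simp [FF]
  · have hlog : Complex.log (y * Complex.I) = (Real.log y : ℂ) + (Real.pi / 2) * Complex.I := by
      rw [Complex.log_ofReal_mul h (by simp), Complex.log_I]
    unfold FF
    rw [hlog, Complex.re_ofReal_mul, mul_pow, hI]
    have e : ((10 / 9 : ℂ) * ((y:ℂ) ^ 3 * -Complex.I) - ((y:ℂ) ^ 3 * -Complex.I) / 3 *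
        ((Real.log y : ℂ) + (Real.pi / 2) * Complex.I)) =
        ((- y ^ 3 * Real.pi / 6 : ℝ) : ℂ) + ((- (10/9) * y ^ 3 + y ^ 3 * Real.log y / 3 : ℝ) : ℂ) * Complex.I := by
      push_cast
      ring_nf
      rw [Complex.I_sq]
      ring
    rw [e]
    simp only [Complex.add_re, Complex.ofReal_re, Complex.re_ofReal_mul, Complex.I_re, mul_zero, add_zero]
    rw [abs_of_pos h]
    field_simp

lemma norm_Phi_of_one {w : ℂ} (h : ‖w‖ = 1) : 2 < ‖Phi w‖ := by
  have hpi := Real.pi_pos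
  have hpi2 := Real.pi_lt_four
  unfold Phi
  rw [norm_mul, norm_mul, h, Complex.norm_real, Real.norm_eq_abs, abs_of_pos (by positivity), one_mul]
  have h1 : (4 - Complex.log w).re ≤ ‖4 - Complex.log w‖ := Complex.re_le_norm _
  rw [Complex.sub_re, Complex.log_re, h, Real.log_one] at h1
  have h2 : (4 : ℂ).re = 4 := by norm_num
  rw [h2, sub_zero] at h1
  calc (2:ℝ) < 2 / Real.pi * 4 := by
        rw [div_mul_eq_mul_div, lt_div_iff₀ hpi]; linarith
    _ ≤ _ := by gcongr

end Pool.Agent.Q175.FB
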