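import Pool.Agent.Q175.FB.Inv

/-! Differentiability of the solution across the free boundary, and its Laplacian. -/

namespace Pool.Agent.Q175.FB

open Set Filter Topology ComplexConjugate

lemma uu_tendsto_bdry {q : ℂ} (hq : q ∈ frontier DC) (hq2 : ‖q‖ < 2) : ContinuousAt uu q := by
  obtain ⟨y, hy1, hyq, hyP⟩ := frontier_param hq hq2
  have hqD : q ∉ DC := by
    rw [frontier, DC_open.interior_eq] at hq
    exact hq.2
  rw [ContinuousAt, uu_off hqD]
  -- the limit from inside
  have hin : Tendsto uu (𝓝[VV] q) (𝓝 0) := by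
    have hW : Tendsto WW (𝓝[VV] q) (𝓝 (y * Complex.I)) := by
      rw [tendsto_iff_norm_sub_tendsto_zero]
      have h1 : Tendsto (fun x => Real.pi / 6 * ‖x - q‖) (𝓝[VV] q) (𝓝 0) := by
        have hc : Continuous (fun x : ℂ => Real.pi / 6 * ‖x - q‖) := by fun_prop
        have := (hc.tendsto q).mono_left (nhdsWithin_le_nhds (s := VV))
        simpa using this
      refine squeeze_zero' (Eventually.of_forall fun _ => norm_nonneg _) ?_ h1
      filter_upwards [self_mem_nhdsWithin] with x hx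
      have := WW_bdry hx hy1
      rwa [hyP] at this
    have hF : Tendsto (fun z => (FF (WW z)).re) (𝓝[VV] q) (𝓝 (FF (y * Complex.I)).re) := by
      have h1 : ContinuousAt FF (y * Complex.I) := cont_FF (by simp)
      exact (Complex.continuous_re.tendsto _).comp (h1.tendsto.comp hW)
    have hR : Tendsto (fun z : ℂ => z.re ^ 3 / 6) (𝓝[VV] q) (𝓝 (q.re ^ 3 / 6)) := by
      have hc : Continuous (fun z : ℂ => z.re ^ 3 / 6) :=
        (Complex.continuous_re.pow 3).div_const 6
      exact (hc.tendsto q).mono_left nhdsWithin_le_nhds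
    have h := hR.add hF
    rw [FF_bdry, hyq] at h
    have e : q.re ^ 3 / 6 + -q.re ^ 3 / 6 = 0 := by ring
    rw [e] at h
    refine h.congr' ?_
    filter_upwards [self_mem_nhdsWithin] with x hx
    unfold uu; rw [if_pos hx]
  have hout : Tendsto uu (𝓝[VVᶜ] q) (𝓝 0) := by
    refine tendsto_const_nhds.congr' ?_
    filter_upwards [self_mem_nhdsWithin] with x hx
    unfold uu; rw [if_neg hx]
  have := hin.sup hout
  rwa [← nhdsWithin_union, union_compl_self, nhdsWithin_univ] at this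

lemma hasFDerivAt_uu_bdry {p : ℂ} (hp : p ∈ frontier DC) (hp2 : ‖p‖ < 2) :
    HasFDerivAt uu (0 : ℂ →L[ℝ] ℝ) p := by
  have hpD : p ∉ DC := by
    rw [frontier, DC_open.interior_eq] at hp
    exact hp.2
  set r := (2 - ‖p‖) / 2 with hr
  have hr0 : 0 < r := by rw [hr]; linarith
  set s : Set ℂ := DC ∩ Metric.ball p r with hs
  have hnorm : ∀ y ∈ closure s, ‖y‖ < 2 ∧ y ∈ closure DC := by
    intro y hy
    have h1 : y ∈ closure DC := closure_mono inter_subset_left hy
    have h2 : y ∈ Metric.closedBall p r := by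
      have : closure s ⊆ Metric.closedBall p r :=
        closure_minimal (inter_subset_right.trans Metric.ball_subset_closedBall) Metric.isClosed_closedBall
      exact this hy
    rw [mem_closedBall_iff_norm] at h2
    refine ⟨?_, h1⟩
    calc ‖y‖ = ‖(y - p) + p‖ := by rw [sub_add_cancel]
      _ ≤ ‖y - p‖ + ‖p‖ := norm_add_le _ _
      _ ≤ r + ‖p‖ := by linarith
      _ < 2 := by rw [hr]; linarith
  have hsV : s ⊆ VV := by
    intro y hy
    exact ⟨hy.1, by rw [mem_ball_zero_iff]; exact (hnorm y (subset_closure hy)).1⟩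
  have hopen : IsOpen s := DC_open.inter Metric.isOpen_ball
  have hconv : Convex ℝ s := DC_convex.inter (convex_ball _ _)
  have h1 : HasFDerivWithinAt uu (0 : ℂ →L[ℝ] ℝ) (closure s) p := by
    refine hasFDerivWithinAt_closure_of_tendsto_fderiv ?_ hconv hopen ?_ ?_
    · intro y hy
      exact (hasFDerivAt_uu_V (hsV hy)).differentiableAt.differentiableWithinAt
    · intro y hy
      obtain ⟨hy2, hyc⟩ := hnorm y hy
      by_cases hyD : y ∈ DC
      · exact (hasFDerivAt_uu_V ⟨hyD, by rwa [mem_ball_zero_iff]⟩).continuousAt.continuousWithinAt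
      · refine (uu_tendsto_bdry ?_ hy2).continuousWithinAt
        rw [frontier, DC_open.interior_eq]
        exact ⟨hyc, hyD⟩
    · rw [tendsto_zero_iff_norm_tendsto_zero]
      have h1 : Tendsto (fun x => 4 * ‖x - p‖) (𝓝[s] p) (𝓝 0) := by
        have hc : Continuous (fun x : ℂ => 4 * ‖x - p‖) := by fun_prop
        have := (hc.tendsto p).mono_left (nhdsWithin_le_nhds (s := s))
        simpa using this
      refine squeeze_zero' (Eventually.of_forall fun _ => norm_nonneg _) ?_ h1
      filter_upwards [self_mem_nhdsWithin] with y hy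
      rw [(hasFDerivAt_uu_V (hsV hy)).fderiv]
      exact (rl_norm_le _).trans (gg_bdry (hsV hy) hp hp2)
  have h2 : HasFDerivWithinAt uu (0 : ℂ →L[ℝ] ℝ) DCᶜ p := by
    refine (hasFDerivWithinAt_const (0:ℝ) p DCᶜ).congr (fun x hx => uu_off hx) (uu_off hpD)
  refine (h1.union h2).hasFDerivAt ?_
  filter_upwards [Metric.ball_mem_nhds p hr0] with x hx
  by_cases hxD : x ∈ DC
  · exact Or.inl (subset_closure ⟨hxD, hx⟩)
  · exact Or.inr hxD

lemma uu_eventually_zero {z : ℂ} (hz : z ∉ closure DC) : uu =ᶠ[𝓝 z] fun _ => 0 := by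
  filter_upwards [isClosed_closure.isOpen_compl.mem_nhds hz] with x hx
  exact uu_off (fun h => hx (subset_closure h))

lemma hasFDerivAt_uu {z : ℂ} (hz2 : ‖z‖ < 2) : HasFDerivAt uu (rl (gg z)) z := by
  by_cases hD : z ∈ DC
  · exact hasFDerivAt_uu_V ⟨hD, by rwa [mem_ball_zero_iff]⟩
  · rw [gg_off hD, rl_zero]
    by_cases hc : z ∈ closure DC
    · refine hasFDerivAt_uu_bdry ?_ hz2
      rw [frontier, DC_open.interior_eq]
      exact ⟨hc, hD⟩
    · exact (hasFDerivAt_const (0:ℝ) z).congr_of_eventuallyEq (uu_eventually_zero hc)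

/-- The derivative of the gradient inside the domain. -/
lemma hasFDerivAt_gg {z : ℂ} (hz : z ∈ VV) : ∃ b : ℂ, HasFDerivAt gg
    ((z.re : ℂ) • (Complex.ofRealCLM.comp Complex.reCLM) + b • (ContinuousLinearMap.id ℝ ℂ)) z := by
  refine ⟨WW z * (dPhi (WW z))⁻¹, ?_⟩
  have h1 : HasDerivAt (fun z => WW z ^ 2 / 2) (WW z * (dPhi (WW z))⁻¹) z := by
    have h3 : HasDerivAt (fun w : ℂ => w ^ 2) (((2:ℕ):ℂ) * WW z ^ (2-1)) (WW z) := hasDerivAt_pow 2 _
    have := (h3.comp z (hasDerivAt_WW hz)).div_const 2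
    refine this.congr_deriv ?_
    push_cast; ring
  have h1' : HasFDerivAt (fun z => WW z ^ 2 / 2)
      ((WW z * (dPhi (WW z))⁻¹) • (ContinuousLinearMap.id ℝ ℂ)) z := by
    refine (h1.hasFDerivAt.restrictScalars ℝ).congr_fderiv ?_
    ext v
    simp [ContinuousLinearMap.toSpanSingleton_apply, mul_comm]
  have h2 : HasFDerivAt (fun z : ℂ => ((z.re : ℝ) : ℂ) ^ 2 / 2)
      ((z.re : ℂ) • (Complex.ofRealCLM.comp Complex.reCLM)) z := by
    have h3 : HasDerivAt (fun w : ℂ => w ^ 2 / 2) (((z.re : ℝ) : ℂ)) (((z.re : ℝ) : ℂ)) := by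
      have := (hasDerivAt_pow 2 ((z.re : ℝ) : ℂ)).div_const 2
      refine this.congr_deriv ?_
      push_cast; ring
    have h4 : HasFDerivAt (fun z : ℂ => ((z.re : ℝ) : ℂ)) (Complex.ofRealCLM.comp Complex.reCLM) z :=
      (Complex.ofRealCLM.comp Complex.reCLM).hasFDerivAt
    have h5 : HasFDerivAt (fun w : ℂ => w ^ 2 / 2) (((z.re : ℝ) : ℂ) • (ContinuousLinearMap.id ℝ ℂ)) ((z.re : ℝ) : ℂ) := by
      refine (h3.hasFDerivAt.restrictScalars ℝ).congr_fderiv ?_
      ext v
      simp [ContinuousLinearMap.toSpanSingleton_apply, mul_comm]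
    refine (h5.comp z h4).congr_fderiv ?_
    ext v
    simp
  have h4 : gg =ᶠ[𝓝 z] (fun z : ℂ => ((z.re : ℝ) : ℂ) ^ 2 / 2 + WW z ^ 2 / 2) := by
    filter_upwards [VV_open.mem_nhds hz] with x hx
    unfold gg; rw [if_pos hx]; ring
  exact (h2.add h1').congr_of_eventuallyEq h4

end Pool.Agent.Q175.FB
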