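import Pool.Agent.Q175.FB.Conf

/-! The domain, the inverse conformal map and the function `u`. -/

namespace Pool.Agent.Q175.FB

open Set Filter Topology ComplexConjugate

/-- the domain, in the complex plane -/
def DC : Set ℂ := {z | hh z.im < z.re}

/-- the part of the domain in the disc of radius `2` -/
def VV : Set ℂ := DC ∩ Metric.ball 0 2

lemma DC_open : IsOpen DC :=
  isOpen_lt (hh_lip.continuous.comp Complex.continuous_im) Complex.continuous_re

lemma mem_DC {z : ℂ} : z ∈ DC ↔ 0 < z.re ∧ Real.pi / 2 * |z.im| < psi z.re := hh_lt_iff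

lemma DC_convex : Convex ℝ DC := by
  intro x hx y hy a b ha hb hab
  rw [mem_DC] at hx hy ⊢
  have e1 : (a • x + b • y).re = a * x.re + b * y.re := by simp
  have e2 : (a • x + b • y).im = a * x.im + b * y.im := by simp
  rw [e1, e2]
  have hpi := Real.pi_pos
  have h1 := psi_concave hx.1.le hy.1.le ha hb hab
  have h2 : |a * x.im + b * y.im| ≤ a * |x.im| + b * |y.im| := by
    refine (abs_add_le _ _).trans ?_
    rw [abs_mul, abs_mul, abs_of_nonneg ha, abs_of_nonneg hb]
  rcases eq_or_lt_of_le ha with h0 | h0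
  · have hb1 : b = 1 := by linarith
    rw [← h0, hb1]; simpa using hy
  · constructor
    · have := mul_pos h0 hx.1
      have := mul_nonneg hb hy.1.le
      linarith
    · calc Real.pi / 2 * |a * x.im + b * y.im| ≤ Real.pi / 2 * (a * |x.im| + b * |y.im|) := by gcongr
        _ = a * (Real.pi / 2 * |x.im|) + b * (Real.pi / 2 * |y.im|) := by ring
        _ < a * psi x.re + b * psi y.re := by
          have h3 := mul_lt_mul_of_pos_left hx.2 h0
          have h4 := mul_le_mul_of_nonneg_left hy.2.le hb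
          linarith
        _ ≤ _ := h1

lemma VV_convex : Convex ℝ VV := DC_convex.inter (convex_ball _ _)

lemma VV_open : IsOpen VV := DC_open.inter Metric.isOpen_ball

lemma frontier_DC : frontier DC = {z | hh z.im = z.re} := by
  apply Subset.antisymm
  · exact frontier_lt_subset_eq (hh_lip.continuous.comp Complex.continuous_im) Complex.continuous_re
  · intro z hz
    have hz' : hh z.im = z.re := hz
    rw [frontier, DC_open.interior_eq]
    refine ⟨?_, ?_⟩
    · rw [Metric.mem_closure_iff]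
      intro ε hε
      refine ⟨z + ((ε/2 : ℝ) : ℂ), ?_, ?_⟩
      · change hh (z + ((ε/2 : ℝ) : ℂ)).im < (z + ((ε/2 : ℝ) : ℂ)).re
        rw [Complex.add_im, Complex.add_re, Complex.ofReal_re, Complex.ofReal_im, add_zero, hz']
        linarith
      · rw [dist_eq_norm, sub_add_cancel_left, norm_neg, Complex.norm_real, Real.norm_eq_abs,
          abs_of_pos (by positivity)]
        linarith
    · intro h
      have h' : hh z.im < z.re := h
      linarith

/-- the boundary points in the disc of radius 2 are images of imaginary points -/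
lemma frontier_param {p : ℂ} (hp : p ∈ frontier DC) (hp2 : ‖p‖ < 2) :
    ∃ y : ℝ, |y| < 1 ∧ |y| = p.re ∧ Phi (y * Complex.I) = p := by
  have hpi := Real.pi_pos
  rw [frontier_DC] at hp
  have hp' : hh p.im = p.re := hp
  have h0 : 0 ≤ p.re := by rw [← hp']; exact hh_nonneg _
  have him : |p.im| < 8 / Real.pi := by
    have h1 := Complex.abs_im_le_norm p
    have h2 : 2 < 8 / Real.pi := by
      rw [lt_div_iff₀ hpi]; have := Real.pi_lt_four; linarith
    linarith
  have h1 : p.re < 1 := by rw [← hp']; exact hh_lt_one him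
  have h2 := psi_hh p.im
  rw [hp', psi_of_le h1.le] at h2
  rcases le_total 0 p.im with h | h
  · refine ⟨p.re, by rwa [abs_of_nonneg h0], abs_of_nonneg h0, ?_⟩
    rw [abs_of_nonneg h] at h2
    apply Complex.ext
    · rw [(Phi_bdry _).1, abs_of_nonneg h0]
    · rw [(Phi_bdry _).2, h2]; field_simp
  · refine ⟨-p.re, by rwa [abs_neg, abs_of_nonneg h0], by rw [abs_neg, abs_of_nonneg h0], ?_⟩
    rw [abs_of_nonpos h] at h2
    apply Complex.ext
    · rw [(Phi_bdry _).1, abs_neg, abs_of_nonneg h0]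
    · rw [(Phi_bdry _).2, Real.log_neg_eq_log, neg_mul, h2]; field_simp

lemma VV_subset : VV ⊆ Phi '' UU := by
  have hpi := Real.pi_pos
  have hopen : IsOpen (Phi '' UU) := by
    rw [isOpen_iff_mem_nhds]
    rintro _ ⟨w, hw, rfl⟩
    rw [← (hasStrictDerivAt_Phi (UU_slit hw)).map_nhds_eq (dPhi_ne hw)]
    exact image_mem_map (UU_open.mem_nhds hw)
  have hcomp : IsCompact (closure UU) := by
    refine (isCompact_closedBall (0:ℂ) 1).of_isClosed_subset isClosed_closure ?_
    exact closure_UU_subset.trans inter_subset_right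
  have hcl : closure (Phi '' UU) ⊆ Phi '' closure UU := by
    apply closure_minimal
    · exact image_mono subset_closure
    · refine (hcomp.image_of_continuousOn ?_).isClosed
      intro w hw
      exact (cont_Phi (closure_UU_subset hw).1).continuousWithinAt
  apply VV_convex.isPreconnected.subset_of_closure_inter_subset hopen
  · -- nonempty
    refine ⟨Phi (1/2), ?_, mem_image_of_mem _ ?_⟩
    · have h1 : Phi (1/2) = ((2 / Real.pi * (1/2 * (4 - Real.log (1/2))) : ℝ) : ℂ) := by
        unfold Phi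
        have : Complex.log (1/2) = ((Real.log (1/2) : ℝ) : ℂ) := by
          rw [Complex.ofReal_log (by norm_num)]; push_cast; rfl
        rw [this]; push_cast; ring
      have hlog : Real.log (1/2) = - Real.log 2 := by
        rw [one_div, Real.log_inv]
      have hl2 : Real.log 2 < 0.7 := by have := Real.log_two_lt_d9; linarith
      have hl0 : 0 < Real.log 2 := Real.log_pos (by norm_num)
      have hval0 : 0 < 2 / Real.pi * (1/2 * (4 - Real.log (1/2))) := by
        rw [hlog]
        have : 0 < 4 - -Real.log 2 := by linarith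
        positivity
      have hval2 : 2 / Real.pi * (1/2 * (4 - Real.log (1/2))) < 2 := by
        rw [hlog]
        have h3 : 3 < Real.pi := Real.pi_gt_three
        rw [div_mul_eq_mul_div, div_lt_iff₀ hpi]
        linarith
      constructor
      · rw [mem_DC, h1, Complex.ofReal_re, Complex.ofReal_im, abs_zero, mul_zero]
        refine ⟨hval0, ?_⟩
        have := psi_nonneg hval0.le
        linarith
      · rw [mem_ball_zero_iff, h1, Complex.norm_real, Real.norm_eq_abs, abs_of_pos hval0]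
        exact hval2
    · refine ⟨?_, ?_⟩
      · change (0:ℝ) < ((1/2 : ℂ)).re
        norm_num
      · rw [mem_ball_zero_iff]; norm_num
  · rintro z ⟨hz, hzV⟩
    obtain ⟨w, hw, rfl⟩ := hcl hz
    refine mem_image_of_mem _ ?_
    obtain ⟨h0, h1⟩ := closure_UU_subset hw
    have h0' : 0 ≤ w.re := h0
    rw [mem_closedBall_zero_iff] at h1
    have h1' : ‖w‖ < 1 := by
      rcases eq_or_lt_of_le h1 with h | h
      · have := norm_Phi_of_one h
        have h2 := hzV.2
        rw [mem_ball_zero_iff] at h2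
        linarith
      · exact h
    refine ⟨?_, by rwa [mem_ball_zero_iff]⟩
    rcases eq_or_lt_of_le h0' with h | h
    · exfalso
      have hw' : w = (w.im : ℂ) * Complex.I := by
        apply Complex.ext <;> simp [← h]
      have h2 := (mem_DC.mp hzV.1).2
      have hy1 : |w.im| ≤ 1 := (Complex.abs_im_le_norm w).trans h1
      rw [hw', (Phi_bdry _).1, (Phi_bdry _).2, psi_of_le hy1, Real.log_abs] at h2
      have hlog : 0 ≤ 4 - Real.log w.im := by
        rw [← Real.log_abs]
        have := Real.log_nonpos (abs_nonneg w.im) hy1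
        linarith
      rw [abs_mul, abs_mul, abs_of_nonneg hlog, abs_of_pos (by positivity : 0 < 2 / Real.pi)] at h2
      have : Real.pi / 2 * (2 / Real.pi * (|w.im| * (4 - Real.log w.im))) = |w.im| * (4 - Real.log w.im) := by
        field_simp
      linarith
    · exact h

/-- the inverse of the conformal map -/
noncomputable def WW (z : ℂ) : ℂ := Function.invFunOn Phi UU z

lemma WW_mem {z : ℂ} (hz : z ∈ VV) : WW z ∈ UU := Function.invFunOn_mem (VV_subset hz)

lemma Phi_WW {z : ℂ} (hz : z ∈ VV) : Phi (WW z) = z := Function.invFunOn_eq (VV_subset hz)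

lemma WW_lip {z z' : ℂ} (hz : z ∈ VV) (hz' : z' ∈ VV) : ‖WW z - WW z'‖ ≤ Real.pi / 6 * ‖z - z'‖ := by
  have := expand (subset_closure (WW_mem hz')) (subset_closure (WW_mem hz))
  rwa [Phi_WW hz, Phi_WW hz'] at this

lemma WW_bdry {z : ℂ} (hz : z ∈ VV) {y : ℝ} (hy : |y| < 1) :
    ‖WW z - y * Complex.I‖ ≤ Real.pi / 6 * ‖z - Phi (y * Complex.I)‖ := by
  have h1 : (y : ℂ) * Complex.I ∈ closure UU := by
    apply mem_closure_UU
    · simp
    · rw [norm_mul, Complex.norm_I, mul_one, Complex.norm_real]; exact hy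
  have := expand h1 (subset_closure (WW_mem hz))
  rwa [Phi_WW hz] at this

lemma WW_cont {z : ℂ} (hz : z ∈ VV) : ContinuousAt WW z := by
  rw [ContinuousAt, tendsto_iff_norm_sub_tendsto_zero]
  have h1 : Tendsto (fun x => Real.pi / 6 * ‖x - z‖) (𝓝 z) (𝓝 0) := by
    have hc : Continuous (fun x : ℂ => Real.pi / 6 * ‖x - z‖) := by fun_prop
    have := hc.tendsto z
    simpa using this
  refine squeeze_zero' (Eventually.of_forall fun _ => norm_nonneg _) ?_ h1
  filter_upwards [VV_open.mem_nhds hz] with x hx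
  exact WW_lip hx hz

lemma hasDerivAt_WW {z : ℂ} (hz : z ∈ VV) : HasDerivAt WW (dPhi (WW z))⁻¹ z := by
  refine HasDerivAt.of_local_left_inverse (WW_cont hz) (hasStrictDerivAt_Phi (UU_slit (WW_mem hz))).hasDerivAt
    (dPhi_ne (WW_mem hz)) ?_
  filter_upwards [VV_open.mem_nhds hz] with x hx
  exact Phi_WW hx

lemma hasDerivAt_FFWW {z : ℂ} (hz : z ∈ VV) : HasDerivAt (fun z => FF (WW z)) (WW z ^ 2 / 2) z := by
  have h := (hasDerivAt_FF (UU_slit (WW_mem hz))).comp z (hasDerivAt_WW hz)
  refine h.congr_deriv ?_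
  field_simp [dPhi_ne (WW_mem hz)]

open Classical in
/-- the solution, in the complex plane -/
noncomputable def uu (z : ℂ) : ℝ := if z ∈ VV then z.re ^ 3 / 6 + (FF (WW z)).re else 0

open Classical in
/-- the (complex) gradient -/
noncomputable def gg (z : ℂ) : ℂ := if z ∈ VV then ((z.re : ℂ) ^ 2 + WW z ^ 2) / 2 else 0

/-- the real linear form `v ↦ Re (a v)` -/
noncomputable def rl (a : ℂ) : ℂ →L[ℝ] ℝ := Complex.reCLM.comp (a • (ContinuousLinearMap.id ℝ ℂ))

lemma rl_apply (a v : ℂ) : rl a v = (a * v).re := by simp [rl]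

lemma rl_sub (a b : ℂ) : rl a - rl b = rl (a - b) := by
  ext v; simp [rl_apply, sub_mul]

lemma rl_norm_le (a : ℂ) : ‖rl a‖ ≤ ‖a‖ := by
  refine ContinuousLinearMap.opNorm_le_bound _ (norm_nonneg _) fun v => ?_
  rw [rl_apply, Real.norm_eq_abs]
  exact (Complex.abs_re_le_norm _).trans (norm_mul _ _).le

lemma rl_zero : rl 0 = 0 := by ext v; simp [rl_apply]

lemma hasFDerivAt_uu_V {z : ℂ} (hz : z ∈ VV) : HasFDerivAt uu (rl (gg z)) z := by
  have h1 : HasFDerivAt (fun z : ℂ => (FF (WW z)).re) (Complex.reCLM.comp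
      (ContinuousLinearMap.restrictScalars ℝ (ContinuousLinearMap.toSpanSingleton ℂ (WW z ^ 2 / 2)))) z :=
    Complex.reCLM.hasFDerivAt.comp z ((hasDerivAt_FFWW hz).hasFDerivAt.restrictScalars ℝ)
  have h2 : HasFDerivAt (fun z : ℂ => z.re ^ 3 / 6) ((z.re ^ 2 / 2) • Complex.reCLM) z := by
    have h3 : HasDerivAt (fun t : ℝ => t ^ 3 / 6) (z.re ^ 2 / 2) z.re := by
      have := (hasDerivAt_pow 3 z.re).div_const 6
      refine this.congr_deriv ?_
      push_cast; ring
    exact h3.comp_hasFDerivAt z Complex.reCLM.hasFDerivAt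
  have h3 := h2.add h1
  have h4 : uu =ᶠ[𝓝 z] (fun z : ℂ => z.re ^ 3 / 6 + (FF (WW z)).re) := by
    filter_upwards [VV_open.mem_nhds hz] with x hx
    unfold uu; rw [if_pos hx]
  refine (h3.congr_of_eventuallyEq h4).congr_fderiv ?_
  ext v
  rw [rl_apply]
  unfold gg
  rw [if_pos hz]
  simp only [add_apply, smul_apply, Complex.reCLM_apply, ContinuousLinearMap.comp_apply,
    ContinuousLinearMap.coe_restrictScalars', ContinuousLinearMap.toSpanSingleton_apply, smul_eq_mul]
  have e : (((z.re : ℂ) ^ 2 + WW z ^ 2) / 2) * v = ((z.re ^ 2 / 2 : ℝ) : ℂ) * v + v * (WW z ^ 2 / 2) := by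
    push_cast; ring
  rw [e, Complex.add_re, Complex.re_ofReal_mul]

lemma gg_bdry {z p : ℂ} (hz : z ∈ VV) (hp : p ∈ frontier DC) (hp2 : ‖p‖ < 2) :
    ‖gg z‖ ≤ 4 * ‖z - p‖ := by
  obtain ⟨y, hy1, hyp, hyP⟩ := frontier_param hp hp2
  have h1 := WW_bdry hz hy1
  rw [hyP] at h1
  have hW1 : ‖WW z‖ < 1 := by have := (WW_mem hz).2; rwa [mem_ball_zero_iff] at this
  have hz2 : ‖z‖ < 2 := by have := hz.2; rwa [mem_ball_zero_iff] at this
  unfold gg
  rw [if_pos hz]
  have e : ((z.re : ℂ) ^ 2 + WW z ^ 2) / 2 =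
      (((z.re - p.re : ℝ) : ℂ) * ((z.re + p.re : ℝ) : ℂ) + (WW z - y * Complex.I) * (WW z + y * Complex.I)) / 2 := by
    have hy2 : ((p.re : ℝ) : ℂ) ^ 2 = (y : ℂ) ^ 2 := by
      rw [← hyp]; norm_cast; exact sq_abs y
    have hI : (y * Complex.I) ^ 2 = - (y : ℂ) ^ 2 := by
      rw [mul_pow, Complex.I_sq]; ring
    push_cast
    have : (WW z - y * Complex.I) * (WW z + y * Complex.I) = WW z ^ 2 + (y : ℂ) ^ 2 := by
      have : (WW z - y * Complex.I) * (WW z + y * Complex.I) = WW z ^ 2 - (y * Complex.I) ^ 2 := by ring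
      rw [this, hI]; ring
    rw [this, ← hy2]
    ring
  rw [e, norm_div, Complex.norm_two]
  have hA : ‖((z.re - p.re : ℝ) : ℂ) * ((z.re + p.re : ℝ) : ℂ)‖ ≤ ‖z - p‖ * 4 := by
    rw [norm_mul, Complex.norm_real, Complex.norm_real]
    have h2 : ‖z.re - p.re‖ ≤ ‖z - p‖ := by
      rw [← Complex.sub_re]; exact Complex.abs_re_le_norm _
    have h3 : ‖z.re + p.re‖ ≤ 4 := by
      refine (norm_add_le _ _).trans ?_
      have h4 : ‖z.re‖ ≤ ‖z‖ := Complex.abs_re_le_norm z
      have h5 : ‖p.re‖ ≤ ‖p‖ := Complex.abs_re_le_norm p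
      linarith
    gcongr
  have hB : ‖(WW z - y * Complex.I) * (WW z + y * Complex.I)‖ ≤ (Real.pi / 6 * ‖z - p‖) * 2 := by
    rw [norm_mul]
    have h3 : ‖WW z + y * Complex.I‖ ≤ 2 := by
      refine (norm_add_le _ _).trans ?_
      rw [norm_mul, Complex.norm_I, mul_one, Complex.norm_real, Real.norm_eq_abs]
      linarith
    gcongr
  have h6 := (norm_add_le (((z.re - p.re : ℝ) : ℂ) * ((z.re + p.re : ℝ) : ℂ)) ((WW z - y * Complex.I) * (WW z + y * Complex.I)))
  have hpi := Real.pi_lt_four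
  have h7 := norm_nonneg (z - p)
  rw [div_le_iff₀ (by norm_num)]
  nlinarith

lemma gg_lip_V {z z' : ℂ} (hz : z ∈ VV) (hz' : z' ∈ VV) : ‖gg z - gg z'‖ ≤ 4 * ‖z - z'‖ := by
  have h1 := WW_lip hz hz'
  have hW1 : ‖WW z‖ < 1 := by have := (WW_mem hz).2; rwa [mem_ball_zero_iff] at this
  have hz2 : ‖z‖ < 2 := by have := hz.2; rwa [mem_ball_zero_iff] at this
  have hW1' : ‖WW z'‖ < 1 := by have := (WW_mem hz').2; rwa [mem_ball_zero_iff] at this
  have hz2' : ‖z'‖ < 2 := by have := hz'.2; rwa [mem_ball_zero_iff] at this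
  unfold gg
  rw [if_pos hz, if_pos hz']
  have e : ((z.re : ℂ) ^ 2 + WW z ^ 2) / 2 - ((z'.re : ℂ) ^ 2 + WW z' ^ 2) / 2 =
      (((z.re - z'.re : ℝ) : ℂ) * ((z.re + z'.re : ℝ) : ℂ) + (WW z - WW z') * (WW z + WW z')) / 2 := by
    push_cast; ring
  rw [e, norm_div, Complex.norm_two]
  have hA : ‖((z.re - z'.re : ℝ) : ℂ) * ((z.re + z'.re : ℝ) : ℂ)‖ ≤ ‖z - z'‖ * 4 := by
    rw [norm_mul, Complex.norm_real, Complex.norm_real]
    have h2 : ‖z.re - z'.re‖ ≤ ‖z - z'‖ := by
      rw [← Complex.sub_re]; exact Complex.abs_re_le_norm _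
    have h3 : ‖z.re + z'.re‖ ≤ 4 := by
      refine (norm_add_le _ _).trans ?_
      have h4 : ‖z.re‖ ≤ ‖z‖ := Complex.abs_re_le_norm z
      have h5 : ‖z'.re‖ ≤ ‖z'‖ := Complex.abs_re_le_norm z'
      linarith
    gcongr
  have hB : ‖(WW z - WW z') * (WW z + WW z')‖ ≤ (Real.pi / 6 * ‖z - z'‖) * 2 := by
    rw [norm_mul]
    have h3 : ‖WW z + WW z'‖ ≤ 2 := by
      refine (norm_add_le _ _).trans ?_
      linarith
    gcongr
  have h6 := (norm_add_le (((z.re - z'.re : ℝ) : ℂ) * ((z.re + z'.re : ℝ) : ℂ)) ((WW z - WW z') * (WW z + WW z')))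
  have hpi := Real.pi_lt_four
  have h7 := norm_nonneg (z - z')
  rw [div_le_iff₀ (by norm_num)]
  nlinarith

/-- a segment leaving the domain meets its boundary -/
lemma exists_frontier {z z' : ℂ} (hz : z ∈ DC) (hz' : z' ∉ DC) :
    ∃ p ∈ segment ℝ z z', p ∈ frontier DC := by
  have hc : Continuous (fun p : ℂ => p.re - hh p.im) :=
    Complex.continuous_re.sub (hh_lip.continuous.comp Complex.continuous_im)
  have h := (convex_segment z z').isPreconnected.intermediate_value (right_mem_segment ℝ z z')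
    (left_mem_segment ℝ z z') hc.continuousOn
  have h1 : hh z.im < z.re := hz
  have h2 : ¬ hh z'.im < z'.re := hz'
  obtain ⟨p, hp, hp0⟩ := h (show (0:ℝ) ∈ Icc _ _ from ⟨by linarith, by linarith⟩)
  refine ⟨p, hp, ?_⟩
  rw [frontier_DC]
  have hp0' : p.re - hh p.im = 0 := hp0
  change hh p.im = p.re
  linarith

lemma gg_off {z : ℂ} (hz : z ∉ DC) : gg z = 0 := by
  unfold gg; rw [if_neg (fun h => hz h.1)]

lemma uu_off {z : ℂ} (hz : z ∉ DC) : uu z = 0 := by
  unfold uu; rw [if_neg (fun h => hz h.1)]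

lemma gg_lip {z z' : ℂ} (hz : ‖z‖ < 2) (hz' : ‖z'‖ < 2) : ‖gg z - gg z'‖ ≤ 4 * ‖z - z'‖ := by
  wlog H : z ∈ DC generalizing z z' with G
  · by_cases H' : z' ∈ DC
    · rw [norm_sub_rev, norm_sub_rev z]; exact G hz' hz H'
    · rw [gg_off H, gg_off H']; simp
  have hzV : z ∈ VV := ⟨H, by rwa [mem_ball_zero_iff]⟩
  by_cases H' : z' ∈ DC
  · exact gg_lip_V hzV ⟨H', by rwa [mem_ball_zero_iff]⟩
  · rw [gg_off H', sub_zero]
    obtain ⟨p, hp1, hp2⟩ := exists_frontier H H'
    have hpn : ‖p‖ < 2 := by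
      have := (convex_ball (0:ℂ) 2).segment_subset (x := z) (y := z') (by rwa [mem_ball_zero_iff]) (by rwa [mem_ball_zero_iff]) hp1
      rwa [mem_ball_zero_iff] at this
    refine (gg_bdry hzV hp2 hpn).trans ?_
    have h3 : ‖z - p‖ ≤ ‖z - z'‖ := by
      have := dist_add_dist_of_mem_segment hp1
      rw [dist_eq_norm, dist_eq_norm, dist_eq_norm] at this
      have h4 := norm_nonneg (p - z')
      linarith
    linarith

end Pool.Agent.Q175.FB
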