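import Mathlib

/-! The auxiliary real function `ψ` and its inverse `k` for the free boundary example. -/

namespace Pool.Agent.Q175.FB

open Set Filter Topology

/-- `ψ t = t (4 - log t)` for `0 ≤ t ≤ 1`, continued by its tangent line `3 t + 1` for `t ≥ 1`. -/
noncomputable def psi (t : ℝ) : ℝ := t * (3 - Real.log (min t 1)) + min t 1

lemma psi_of_le {t : ℝ} (h : t ≤ 1) : psi t = t * (4 - Real.log t) := by
  unfold psi; rw [min_eq_left h]; ring

lemma psi_zero : psi 0 = 0 := by unfold psi; simp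

lemma psi_one : psi 1 = 4 := by unfold psi; simp; norm_num

lemma psi_le_aff {s a : ℝ} (hs : 0 ≤ s) (ha : 0 < a) (ha1 : a ≤ 1) :
    psi s ≤ (3 - Real.log a) * s + a := by
  rcases eq_or_lt_of_le hs with h0 | h0
  · subst h0; rw [psi_zero]; simp [ha.le]
  rcases le_total s 1 with h1 | h1
  · rw [psi_of_le h1]
    have h2 : Real.log (a / s) ≤ a / s - 1 := Real.log_le_sub_one_of_pos (by positivity)
    rw [Real.log_div ha.ne' h0.ne'] at h2
    have h3 : s * (Real.log a - Real.log s) ≤ s * (a / s - 1) := mul_le_mul_of_nonneg_left h2 hs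
    have h4 : s * (a / s - 1) = a - s := by field_simp
    nlinarith
  · unfold psi
    rw [min_eq_right h1]
    have h2 : Real.log a ≤ a - 1 := Real.log_le_sub_one_of_pos ha
    simp only [Real.log_one]
    nlinarith

lemma psi_eq_aff (t : ℝ) : psi t = (3 - Real.log (min t 1)) * t + min t 1 := by
  unfold psi; ring

lemma psi_expand {s t : ℝ} (hs : 0 ≤ s) (hst : s ≤ t) : 3 * (t - s) ≤ psi t - psi s := by
  rcases eq_or_lt_of_le hst with h0 | h0
  · subst h0; simp
  have ht : 0 < t := lt_of_le_of_lt hs h0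
  have hm : 0 < min t 1 := lt_min ht one_pos
  have h1 := psi_le_aff (a := min t 1) hs hm (min_le_right _ _)
  have h2 := psi_eq_aff t
  have h3 : Real.log (min t 1) ≤ 0 := Real.log_nonpos hm.le (min_le_right _ _)
  nlinarith

lemma psi_lt {s t : ℝ} (hs : 0 ≤ s) (hst : s < t) : psi s < psi t := by
  have := psi_expand hs hst.le
  linarith

lemma psi_le {s t : ℝ} (hs : 0 ≤ s) (hst : s ≤ t) : psi s ≤ psi t := by
  have := psi_expand hs hst
  linarith

lemma psi_nonneg {t : ℝ} (h : 0 ≤ t) : 3 * t ≤ psi t := by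
  have := psi_expand le_rfl h
  rw [psi_zero] at this; linarith

lemma psi_concave {x y a b : ℝ} (hx : 0 ≤ x) (hy : 0 ≤ y) (ha : 0 ≤ a) (hb : 0 ≤ b)
    (hab : a + b = 1) : a * psi x + b * psi y ≤ psi (a * x + b * y) := by
  have ht : 0 ≤ a * x + b * y := by positivity
  rcases eq_or_lt_of_le ht with h0 | h0
  · have h1 : a * x = 0 := by nlinarith [mul_nonneg ha hx, mul_nonneg hb hy]
    have h2 : b * y = 0 := by nlinarith [mul_nonneg ha hx, mul_nonneg hb hy]
    rw [← h0, psi_zero]
    rcases mul_eq_zero.mp h1 with h1 | h1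
    · rcases mul_eq_zero.mp h2 with h2 | h2
      · rw [h1, h2]; simp
      · rw [h1, h2, psi_zero]; simp
    · rcases mul_eq_zero.mp h2 with h2 | h2
      · rw [h1, h2, psi_zero]; simp
      · rw [h1, h2, psi_zero]; simp
  · set t := a * x + b * y with htd
    have hm : 0 < min t 1 := lt_min h0 one_pos
    have h1 := psi_le_aff (a := min t 1) hx hm (min_le_right _ _)
    have h2 := psi_le_aff (a := min t 1) hy hm (min_le_right _ _)
    have h3 := psi_eq_aff t
    have h4 := mul_le_mul_of_nonneg_left h1 ha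
    have h5 := mul_le_mul_of_nonneg_left h2 hb
    calc a * psi x + b * psi y ≤ a * ((3 - Real.log (min t 1)) * x + min t 1)
          + b * ((3 - Real.log (min t 1)) * y + min t 1) := add_le_add h4 h5
      _ = (3 - Real.log (min t 1)) * (a * x + b * y) + (a + b) * min t 1 := by ring
      _ = psi t := by rw [hab, h3, htd]; ring

lemma continuous_psi : ContinuousOn psi (Ici 0) := by
  have h1 : ContinuousOn (fun t : ℝ => 4 * t - t * Real.log t) (Icc 0 1) :=
    ((continuous_const.mul continuous_id).sub Real.continuous_mul_log).continuousOn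
  have h2 : ContinuousOn (fun t : ℝ => 3 * t + 1) (Ici 1) := by fun_prop
  have h3 : Ici (0:ℝ) = Icc 0 1 ∪ Ici 1 := by
    ext x; simp only [mem_Ici, mem_union, mem_Icc]
    constructor
    · intro h; rcases le_total x 1 with h' | h'
      · exact Or.inl ⟨h, h'⟩
      · exact Or.inr h'
    · rintro (h | h)
      · exact h.1
      · linarith
  rw [h3]
  apply ContinuousOn.union_of_isClosed
  · refine h1.congr fun t ht => ?_
    rw [psi_of_le ht.2]; ring
  · refine h2.congr fun t ht => ?_
    have : (1:ℝ) ≤ t := ht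
    unfold psi; rw [min_eq_right this]; simp; ring
  · exact isClosed_Icc
  · exact isClosed_Ici

lemma exists_k (s : ℝ) (hs : 0 ≤ s) : ∃ t, 0 ≤ t ∧ psi t = s := by
  have h1 : s ∈ Icc (psi 0) (psi s) := by
    rw [psi_zero]
    refine ⟨hs, ?_⟩
    have := psi_nonneg hs
    linarith
  have h2 := intermediate_value_Icc hs (continuous_psi.mono (fun x hx => hx.1)) h1
  obtain ⟨t, ht, h⟩ := h2
  exact ⟨t, ht.1, h⟩

/-- the inverse function of `ψ` on the half-line -/
noncomputable def kk (s : ℝ) : ℝ := if h : 0 ≤ s then (exists_k s h).choose else 0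

lemma kk_nonneg (s : ℝ) : 0 ≤ kk s := by
  unfold kk
  split_ifs with h
  · exact (exists_k s h).choose_spec.1
  · exact le_rfl

lemma psi_kk {s : ℝ} (hs : 0 ≤ s) : psi (kk s) = s := by
  unfold kk
  rw [dif_pos hs]
  exact (exists_k s hs).choose_spec.2

lemma kk_eq {s t : ℝ} (ht : 0 ≤ t) (h : psi t = s) : kk s = t := by
  have hs : 0 ≤ s := by rw [← h]; have := psi_nonneg ht; linarith
  have h1 := psi_kk hs
  rcases lt_trichotomy (kk s) t with h2 | h2 | h2
  · have := psi_lt (kk_nonneg s) h2; linarith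
  · exact h2
  · have := psi_lt ht h2; linarith

lemma kk_zero : kk 0 = 0 := kk_eq le_rfl psi_zero

lemma kk_lt_iff {s t : ℝ} (hs : 0 ≤ s) : kk s < t ↔ 0 < t ∧ s < psi t := by
  constructor
  · intro h
    refine ⟨lt_of_le_of_lt (kk_nonneg s) h, ?_⟩
    have := psi_lt (kk_nonneg s) h
    rwa [psi_kk hs] at this
  · rintro ⟨h1, h2⟩
    by_contra h
    push Not at h
    have := psi_le h1.le h
    rw [psi_kk hs] at this
    linarith

lemma kk_expand {s t : ℝ} (hs : 0 ≤ s) (ht : 0 ≤ t) : |kk s - kk t| ≤ |s - t| / 3 := by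
  wlog h : kk t ≤ kk s generalizing s t with H
  · rw [abs_sub_comm, abs_sub_comm s t]
    exact H ht hs (by linarith)
  have := psi_expand (kk_nonneg t) h
  rw [psi_kk hs, psi_kk ht] at this
  rw [abs_of_nonneg (by linarith)]
  have h2 : s - t ≤ |s - t| := le_abs_self _
  linarith

/-- the boundary function of the domain -/
noncomputable def hh (s : ℝ) : ℝ := kk (Real.pi / 2 * |s|)

lemma hh_nonneg (s : ℝ) : 0 ≤ hh s := kk_nonneg _

lemma hh_zero : hh 0 = 0 := by unfold hh; simp [kk_zero]

lemma arg_nonneg (s : ℝ) : 0 ≤ Real.pi / 2 * |s| := by positivity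

lemma hh_lip : LipschitzWith (Real.toNNReal (Real.pi / 6)) hh := by
  apply LipschitzWith.of_dist_le_mul
  intro s t
  rw [Real.coe_toNNReal _ (by positivity), Real.dist_eq, Real.dist_eq]
  unfold hh
  refine (kk_expand (arg_nonneg s) (arg_nonneg t)).trans ?_
  have h1 : abs (Real.pi / 2 * |s| - Real.pi / 2 * |t|) = Real.pi / 2 * abs (|s| - |t|) := by
    rw [← mul_sub, abs_mul, abs_of_pos (by positivity)]
  rw [h1]
  have h2 := abs_abs_sub_abs_le_abs_sub s t
  have h3 : 0 < Real.pi := Real.pi_pos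
  nlinarith

lemma hh_lt_iff {s t : ℝ} : hh s < t ↔ 0 < t ∧ Real.pi / 2 * |s| < psi t :=
  kk_lt_iff (arg_nonneg s)

lemma psi_hh (s : ℝ) : psi (hh s) = Real.pi / 2 * |s| := psi_kk (arg_nonneg s)

lemma hasDerivAt_psi {t : ℝ} (h0 : 0 < t) (h1 : t < 1) : HasDerivAt psi (3 - Real.log t) t := by
  have h2 : HasDerivAt (fun t : ℝ => 4 * t - t * Real.log t) (4 * 1 - (Real.log t + 1)) t :=
    ((hasDerivAt_id t).const_mul 4).sub (Real.hasDerivAt_mul_log h0.ne')
  have h3 : psi =ᶠ[𝓝 t] (fun t : ℝ => 4 * t - t * Real.log t) := by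
    filter_upwards [Iio_mem_nhds h1] with x hx
    rw [psi_of_le (le_of_lt hx)]; ring
  refine (h2.congr_of_eventuallyEq h3).congr_deriv ?_
  ring

lemma kk_pos {s : ℝ} (hs : 0 < s) : 0 < kk s := by
  rcases eq_or_lt_of_le (kk_nonneg s) with h | h
  · have := psi_kk hs.le
    rw [← h, psi_zero] at this
    linarith
  · exact h

lemma kk_lt_one {s : ℝ} (hs : 0 ≤ s) (h4 : s < 4) : kk s < 1 := by
  rw [kk_lt_iff hs, psi_one]
  exact ⟨one_pos, h4⟩

lemma hasDerivAt_kk {s : ℝ} (hs : 0 < s) (h4 : s < 4) :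
    HasDerivAt kk (3 - Real.log (kk s))⁻¹ s := by
  have hlog : Real.log (kk s) < 0 := Real.log_neg (kk_pos hs) (kk_lt_one hs.le h4)
  refine HasDerivAt.of_local_left_inverse (f := psi) ?_ (hasDerivAt_psi (kk_pos hs) (kk_lt_one hs.le h4))
    (by linarith) ?_
  · rw [Metric.continuousAt_iff]
    intro ε hε
    refine ⟨min ε s, lt_min hε hs, fun {x} hx => ?_⟩
    have hx0 : 0 ≤ x := by
      rw [Real.dist_eq] at hx
      have := (abs_lt.mp (lt_of_lt_of_le hx (min_le_right _ _))).1
      linarith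
    rw [Real.dist_eq] at hx ⊢
    have := kk_expand hx0 hs.le
    have h2 := lt_of_lt_of_le hx (min_le_left _ _)
    have h3 := abs_nonneg (x - s)
    linarith
  · filter_upwards [Ioi_mem_nhds hs] with y hy
    exact psi_kk (le_of_lt hy)

/-- the derivative of the boundary function near `0` -/
noncomputable def dh (s : ℝ) : ℝ := Real.sign s * (Real.pi / 2) * (3 - Real.log (hh s))⁻¹

lemma hh_even (s : ℝ) : hh (-s) = hh s := by unfold hh; rw [abs_neg]

lemma hh_tendsto_zero : Tendsto hh (𝓝 0) (𝓝 0) := by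
  have := hh_lip.continuous.tendsto 0
  rwa [hh_zero] at this

lemma hh_pos {s : ℝ} (hs : s ≠ 0) : 0 < hh s := by
  apply kk_pos
  have := abs_pos.mpr hs
  positivity

lemma hh_lt_one {s : ℝ} (hs : |s| < 8 / Real.pi) : hh s < 1 := by
  apply kk_lt_one (arg_nonneg s)
  have h0 := Real.pi_pos
  calc Real.pi / 2 * |s| < Real.pi / 2 * (8 / Real.pi) := by gcongr
    _ = 4 := by field_simp; norm_num

lemma log_hh_tendsto : Tendsto (fun s => (3 - Real.log (hh s))⁻¹) (𝓝[≠] 0) (𝓝 0) := by
  have h1 : Tendsto hh (𝓝[≠] 0) (𝓝[>] 0) := by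
    apply tendsto_nhdsWithin_iff.mpr
    exact ⟨hh_tendsto_zero.mono_left nhdsWithin_le_nhds,
      eventually_nhdsWithin_of_forall fun s hs => hh_pos hs⟩
  have h2 := Real.tendsto_log_nhdsGT_zero.comp h1
  have h3 : Tendsto (fun s => 3 - Real.log (hh s)) (𝓝[≠] 0) atTop := by
    have := tendsto_neg_atBot_atTop.comp h2
    have h4 := tendsto_atTop_add_const_left _ 3 this
    refine h4.congr fun s => ?_
    simp [sub_eq_add_neg]
  exact tendsto_inv_atTop_zero.comp h3

lemma hasDerivAt_hh {s : ℝ} (hs : |s| < 8 / Real.pi) : HasDerivAt hh (dh s) s := by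
  have hpi := Real.pi_pos
  have h4 : Real.pi / 2 * |s| < 4 := by
    calc Real.pi / 2 * |s| < Real.pi / 2 * (8 / Real.pi) := by gcongr
      _ = 4 := by field_simp; norm_num
  rcases lt_trichotomy s 0 with h | h | h
  · have h1 : HasDerivAt (fun s : ℝ => Real.pi / 2 * (-s)) (Real.pi / 2 * (-1)) s :=
      (hasDerivAt_neg s).const_mul _
    have h2 : 0 < Real.pi / 2 * (-s) := by
      have : 0 < -s := by linarith
      positivity
    have h3 := HasDerivAt.comp s (hasDerivAt_kk (s := Real.pi / 2 * (-s)) h2 (by rwa [abs_of_neg h] at h4)) h1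
    refine (h3.congr_of_eventuallyEq ?_).congr_deriv ?_
    · filter_upwards [Iio_mem_nhds h] with x hx
      unfold hh; rw [abs_of_neg hx]; rfl
    · unfold dh hh; rw [Real.sign_of_neg h, abs_of_neg h]; ring
  · subst h
    have hd : dh 0 = 0 := by unfold dh; simp
    rw [hd, hasDerivAt_iff_isLittleO_nhds_zero]
    simp only [zero_add, hh_zero, sub_zero, smul_zero]
    rw [Asymptotics.isLittleO_iff]
    intro c hc
    have h1 := log_hh_tendsto.eventually (Metric.ball_mem_nhds 0 (show (0:ℝ) < c / (Real.pi / 2) by positivity))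
    rw [eventually_nhdsWithin_iff] at h1
    have h8 : (0:ℝ) < 8 / Real.pi := by positivity
    filter_upwards [h1, Metric.ball_mem_nhds (0:ℝ) h8] with x hx hx8
    by_cases hx0 : x = 0
    · subst hx0; simp [hh_zero]
    have h2 := hx hx0
    have hx1 : |x| < 8 / Real.pi := by simpa using hx8
    have hh1 := hh_lt_one hx1
    have hh0 := hh_pos hx0
    have hlog : Real.log (hh x) < 0 := Real.log_neg hh0 hh1
    have hpos : 0 < 3 - Real.log (hh x) := by linarith
    have h5 : (3 - Real.log (hh x))⁻¹ < c / (Real.pi / 2) := by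
      rw [dist_zero_right, Real.norm_eq_abs, abs_of_pos (by positivity)] at h2
      exact h2
    have h6 := psi_hh x
    rw [psi_of_le hh1.le] at h6
    rw [Real.norm_eq_abs, Real.norm_eq_abs, abs_of_pos hh0]
    -- hh x * (3 - log) ≤ pi/2 |x|
    have h7 : hh x * (3 - Real.log (hh x)) ≤ Real.pi / 2 * |x| := by nlinarith
    have h9 : hh x ≤ Real.pi / 2 * |x| * (3 - Real.log (hh x))⁻¹ := by
      rw [← div_eq_mul_inv, le_div_iff₀ hpos]; exact h7
    have h10 : Real.pi / 2 * |x| * (3 - Real.log (hh x))⁻¹ ≤ Real.pi / 2 * |x| * (c / (Real.pi / 2)) := by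
      gcongr
    calc hh x ≤ _ := h9
      _ ≤ _ := h10
      _ = c * |x| := by field_simp
  · have h1 : HasDerivAt (fun s : ℝ => Real.pi / 2 * s) (Real.pi / 2 * 1) s :=
      (hasDerivAt_id s).const_mul _
    have h2 : 0 < Real.pi / 2 * s := by positivity
    have h3 := HasDerivAt.comp s (hasDerivAt_kk (s := Real.pi / 2 * s) h2 (by rwa [abs_of_pos h] at h4)) h1
    refine (h3.congr_of_eventuallyEq ?_).congr_deriv ?_
    · filter_upwards [Ioi_mem_nhds h] with x hx
      unfold hh; rw [abs_of_pos hx]; rfl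
    · unfold dh hh; rw [Real.sign_of_pos h, abs_of_pos h]; ring

lemma continuousAt_dh {s : ℝ} (hs : |s| < 8 / Real.pi) : ContinuousAt dh s := by
  have hpi := Real.pi_pos
  by_cases h0 : s = 0
  · subst h0
    have hd : dh 0 = 0 := by unfold dh; simp
    rw [continuousAt_iff_punctured_nhds, hd]
    have h1 := log_hh_tendsto.const_mul (Real.pi / 2)
    rw [mul_zero] at h1
    refine squeeze_zero_norm' ?_ h1
    have h8 : (0:ℝ) < 8 / Real.pi := by positivity
    filter_upwards [self_mem_nhdsWithin, mem_nhdsWithin_of_mem_nhds (Metric.ball_mem_nhds (0:ℝ) h8)] with x hx0 hx8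
    have hx1 : |x| < 8 / Real.pi := by simpa using hx8
    have hlog : Real.log (hh x) < 0 := Real.log_neg (hh_pos hx0) (hh_lt_one hx1)
    have hpos : 0 < (3 - Real.log (hh x))⁻¹ := by
      have : 0 < 3 - Real.log (hh x) := by linarith
      positivity
    unfold dh
    rw [norm_mul, norm_mul, Real.norm_eq_abs, Real.norm_eq_abs, Real.norm_eq_abs, abs_of_pos hpos,
      abs_of_pos (show (0:ℝ) < Real.pi / 2 by positivity)]
    have h3 : |Real.sign x| ≤ 1 := by
      rcases Real.sign_apply_eq x with h | h | h <;> rw [h] <;> simp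
    gcongr
    nlinarith
  · have hlog : Real.log (hh s) < 0 := Real.log_neg (hh_pos h0) (hh_lt_one hs)
    have h1 : ContinuousAt (fun s => (3 - Real.log (hh s))⁻¹) s := by
      refine ContinuousAt.inv₀ (continuousAt_const.sub (ContinuousAt.log hh_lip.continuous.continuousAt (hh_pos h0).ne')) ?_
      linarith
    have h2 : ContinuousAt Real.sign s := by
      rcases lt_or_gt_of_ne h0 with h | h
      · refine continuousAt_const.congr (f := fun _ => (-1:ℝ)) ?_
        filter_upwards [Iio_mem_nhds h] with x hx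
        rw [Real.sign_of_neg hx]
      · refine continuousAt_const.congr (f := fun _ => (1:ℝ)) ?_
        filter_upwards [Ioi_mem_nhds h] with x hx
        rw [Real.sign_of_pos hx]
    exact (h2.mul continuousAt_const).mul h1

end Pool.Agent.Q175.FB
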